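import Pool.Agent.H71.O2.K1

set_option autoImplicit false

/-!
In a finite automorphic loop of odd order only the identity is its own inverse
(proof of helper95).
-/

namespace ALoop

open Equiv

variable {Q : Type*} {G : Subgroup (Perm Q)} {L : Q → Perm Q} {J : Perm Q} {e : Q}

/-- parity of the number of fixed points of an element of 2-power order -/
theorem odd_fixed93 [Finite Q] (g : Perm Q) (F : Set Q) (hF : ∀ y ∈ F, g y ∈ F)
    (hodd : Odd F.ncard) {k : ℕ} (hk : g ^ (2 ^ k) = 1) :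
    Odd {y | y ∈ F ∧ g y = y}.ncard := by
  classical
  have : Fintype Q := Fintype.ofFinite Q
  let f : Function.End F := fun y => ⟨g y.1, hF y.1 y.2⟩
  have hf : ∀ (n : ℕ) (y : F), (((f ^ n) y : F) : Q) = (g ^ n) y := by
    intro n
    induction n with
    | zero => intro y; rfl
    | succ n ih =>
      intro y
      rw [pow_succ', pow_succ', Perm.mul_apply, ← ih]
      rfl
  have h1 := Equiv.Perm.card_fixedPoints_modEq (f := f) (p := 2) (n := k) (by
    funext y
    apply Subtype.ext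
    rw [hf, hk]
    rfl)
  have h2 : Fintype.card F = F.ncard := by
    rw [← Nat.card_eq_fintype_card, Nat.card_coe_set_eq]
  have h3 : Fintype.card (Function.fixedPoints f) = {y | y ∈ F ∧ g y = y}.ncard := by
    rw [← Nat.card_eq_fintype_card, ← Nat.card_coe_set_eq]
    refine Nat.card_congr ⟨fun y => ⟨y.1.1, y.1.2, congrArg Subtype.val y.2⟩,
      fun y => ⟨⟨y.1, y.2.1⟩, Subtype.ext y.2.2⟩, fun _ => rfl, fun _ => rfl⟩
  rw [h2, h3] at h1
  rw [Nat.odd_iff] at hodd ⊢
  unfold Nat.ModEq at h1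
  omega

/-- a finite subset closed under products -/
def SubL93 (L : Q → Perm Q) (e : Q) (F : Set Q) : Prop :=
  e ∈ F ∧ ∀ x ∈ F, ∀ y ∈ F, L x y ∈ F

theorem inv_mem93 [Finite Q] {F : Set Q} {g : Perm Q} (hg : ∀ y ∈ F, g y ∈ F) {y : Q}
    (hy : y ∈ F) : g⁻¹ y ∈ F := by
  have h1 : g '' F = F := by
    apply Set.eq_of_subset_of_ncard_le
    · rintro _ ⟨z, hz, rfl⟩
      exact hg z hz
    · rw [Set.ncard_image_of_injective _ g.injective]
    · exact Set.toFinite _
  rw [← h1] at hy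
  obtain ⟨z, hz, rfl⟩ := hy
  rwa [inv_apply']

theorem AL0.fix_odd_aux93 [Finite Q] (h : AL0 G L J e) : ∀ (n : ℕ) (F : Set Q), F.ncard = n →
    SubL93 L e F → Odd F.ncard → ∀ x ∈ F, J x = x → x ≠ e → False := by
  intro n
  induction n using Nat.strong_induction_on with
  | _ n ih =>
    intro F hn hF hodd x hxF hJx hxe
    have hLm : ∀ y ∈ F, ∀ z ∈ F, L y z ∈ F := hF.2
    have hLi : ∀ y ∈ F, ∀ z ∈ F, (L y)⁻¹ z ∈ F := fun y hy z hz => inv_mem93 (hLm y hy) hz
    have hJm : ∀ y ∈ F, J y ∈ F := by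
      intro y hy
      rw [← h.L_inv_e]
      exact hLi y hy e hF.1
    have hRm : ∀ y ∈ F, ∀ z ∈ F, Rt L J y z ∈ F := by
      intro y hy z hz
      rw [h.Rt_app]; exact hLm z hz y hy
    have hRi : ∀ y ∈ F, ∀ z ∈ F, (Rt L J y)⁻¹ z ∈ F := fun y hy z hz => inv_mem93 (hRm y hy) hz
    have hTm : ∀ y ∈ F, ∀ z ∈ F, Tx L J y z ∈ F := by
      intro y hy z hz
      unfold Tx
      rw [Perm.mul_apply]
      exact hLm y hy _ (hRi y hy z hz)
    -- minimality
    have hmin : ∀ F' : Set Q, F' ⊆ F → SubL93 L e F' → Odd F'.ncard → ∀ y ∈ F', J y = y → y ≠ e →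
        F' = F := by
      intro F' hF' hs ho y hy hJy hye
      by_contra hne
      have h1 : F'.ncard < F.ncard :=
        Set.ncard_lt_ncard (lt_of_le_of_ne hF' hne) (Set.toFinite _)
      rw [hn] at h1
      exact ih _ h1 F' rfl hs ho y hy hJy hye
    -- (A)
    have hA : ∀ b ∈ G, b e = e → (∀ y ∈ F, b y ∈ F) → ∀ k : ℕ, b ^ (2 ^ k) = 1 → ∀ y ∈ F,
        b y = y → J y = y → y ≠ e → ∀ z ∈ F, b z = z := by
      intro b hb hbe hbF k hk y hy hby hJy hye z hz
      have h1 := hmin {w | w ∈ F ∧ b w = w} (fun w hw => hw.1) ⟨⟨hF.1, hbe⟩, by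
        rintro u ⟨hu, hbu⟩ v ⟨hv, hbv⟩
        refine ⟨hLm u hu v hv, ?_⟩
        have h2 := h.equi b hb hbe u
        rw [hbu, mul_inv_eq_iff_eq_mul] at h2
        have h3 := congrArg (fun p : Perm Q => p v) h2
        simp only [Perm.mul_apply] at h3
        rw [h3, hbv]⟩ (odd_fixed93 b F hbF hodd hk) y ⟨hy, hby⟩ hJy hye
      have h2 : z ∈ {w | w ∈ F ∧ b w = w} := by rw [h1]; exact hz
      exact h2.2
    -- (1)
    have hT : ∀ y ∈ F, J y = y → y ≠ e → ∀ z ∈ F, Tx L J y z = z := by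
      intro y hy hJy hye
      have h1 : Tx L J y ^ (2 ^ 1) = 1 := by
        have h2 := h.Tx_inv y
        rw [hJy] at h2
        rw [pow_one, pow_two]
        nth_rewrite 1 [h2]
        group
      exact hA _ (h.Tx_mem y) (h.Tx_e y) (hTm y hy) 1 h1 y hy (h.Tx_x y) hJy hye
    have hcom : ∀ y ∈ F, J y = y → ∀ z ∈ F, L y z = L z y := by
      intro y hy hJy z hz
      by_cases hye : y = e
      · subst hye
        rw [h.Le1, h.Le, Perm.one_apply]
      · have h1 := hT y hy hJy hye (Rt L J y z) (hRm y hy z hz)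
        unfold Tx at h1
        rw [Perm.mul_apply, inv_apply', h.Rt_app] at h1
        exact h1
    -- (2)
    have hJJ : J ^ (2 ^ 1) = 1 := by
      rw [pow_one, pow_two]; exact h.JJ1
    have hJF : ∀ z ∈ F, J z = z := by
      have h1 := hmin {w | w ∈ F ∧ J w = w} (fun w hw => hw.1) ⟨⟨hF.1, h.Je⟩, by
        rintro u ⟨hu, hJu⟩ v ⟨hv, hJv⟩
        refine ⟨hLm u hu v hv, ?_⟩
        rw [h.aaip, hJu, hJv, hcom v hv hJv u hu]⟩ (odd_fixed93 J F hJm hodd hJJ) x ⟨hxF, hJx⟩
        hJx hxe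
      intro z hz
      have h2 : z ∈ {w | w ∈ F ∧ J w = w} := by rw [h1]; exact hz
      exact h2.2
    -- (3)
    obtain ⟨k, m, hm, hkm⟩ : ∃ k m : ℕ, Odd m ∧ (L x ^ m) ^ (2 ^ k) = 1 := by
      have h0 : orderOf (L x) ≠ 0 := (orderOf_pos (L x)).ne'
      obtain ⟨k, m, hm, hkm⟩ := Nat.exists_eq_two_pow_mul_odd h0
      refine ⟨k, m, hm, ?_⟩
      rw [← pow_mul, mul_comm m, ← hkm, pow_orderOf_eq_one]
    obtain ⟨g, hg⟩ : ∃ g, g = L x ^ m := ⟨_, rfl⟩
    rw [← hg] at hkm
    have hxx : L x x = e := by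
      have := h.LJ x
      rwa [hJx] at this
    have hge : g e = x ∧ g x = e := by
      obtain ⟨j, hj⟩ := hm
      have h1 : ∀ i : ℕ, (L x ^ (2 * i + 1)) e = x ∧ (L x ^ (2 * i + 1)) x = e := by
        intro i
        induction i with
        | zero =>
          refine ⟨?_, ?_⟩
          · simp [h.Le]
          · simp [hxx]
        | succ i ih2 =>
          have h2 : 2 * (i + 1) + 1 = (2 * i + 1) + 1 + 1 := by ring
          rw [h2, pow_succ, pow_succ]
          simp only [Perm.mul_apply]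
          rw [h.Le, hxx, h.Le]
          exact ih2
      rw [hg, hj]
      exact h1 j
    have hgF : ∀ y ∈ F, g y ∈ F := by
      have h1 : ∀ i : ℕ, ∀ y ∈ F, (L x ^ i) y ∈ F := by
        intro i
        induction i with
        | zero => intro y hy; simpa using hy
        | succ i ih2 =>
          intro y hy
          rw [pow_succ', Perm.mul_apply]
          exact hLm x hxF _ (ih2 y hy)
      rw [hg]; exact h1 m
    have h5 := odd_fixed93 g F hgF hodd hkm
    have h6 : {y | y ∈ F ∧ g y = y}.Nonempty := by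
      rw [Set.nonempty_iff_ne_empty]
      intro h7
      rw [h7, Set.ncard_empty] at h5
      exact absurd h5 (by decide)
    obtain ⟨w, hw, hgw⟩ := h6
    have hgG : g ∈ G := by rw [hg]; exact G.pow_mem (h.memL x) m
    obtain ⟨b, hb⟩ : ∃ b, b = (L w)⁻¹ * g * L w := ⟨_, rfl⟩
    have hbG : b ∈ G := by
      rw [hb]; exact G.mul_mem (G.mul_mem (G.inv_mem (h.memL w)) hgG) (h.memL w)
    have hbe : b e = e := by
      rw [hb, Perm.mul_apply, Perm.mul_apply, h.Le, hgw, Perm.inv_eq_iff_eq, h.Le]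
    have hbF : ∀ y ∈ F, b y ∈ F := by
      intro y hy
      rw [hb, Perm.mul_apply, Perm.mul_apply]
      exact hLi w hw _ (hgF _ (hLm w hw y hy))
    have hbk : b ^ (2 ^ k) = 1 := by
      have h7 : b = (L w)⁻¹ * g * ((L w)⁻¹)⁻¹ := by rw [hb, inv_inv]
      rw [h7, conj_pow, hkm]; group
    have hbp : b ((L w)⁻¹ e) = (L w)⁻¹ x := by
      rw [hb, Perm.mul_apply, Perm.mul_apply, apply_inv', hge.1]
    have hbq : b ((L w)⁻¹ x) = (L w)⁻¹ e := by
      rw [hb, Perm.mul_apply, Perm.mul_apply, apply_inv', hge.2]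
    have hpF : (L w)⁻¹ e ∈ F := hLi w hw e hF.1
    have hqF : (L w)⁻¹ x ∈ F := hLi w hw x hxF
    obtain ⟨p, hp⟩ : ∃ p, p = (L w)⁻¹ e := ⟨_, rfl⟩
    obtain ⟨q, hq⟩ : ∃ q, q = (L w)⁻¹ x := ⟨_, rfl⟩
    rw [← hp, ← hq] at hbp hbq
    rw [← hp] at hpF
    rw [← hq] at hqF
    have hpq : p ≠ q := by
      intro h8
      rw [hp, hq] at h8
      exact hxe ((L w)⁻¹.injective h8).symm
    have hs : b (L p q) = L p q := by
      have h2 := h.equi b hbG hbe p
      rw [hbp, mul_inv_eq_iff_eq_mul] at h2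
      have h3 := congrArg (fun f : Perm Q => f q) h2
      simp only [Perm.mul_apply] at h3
      rw [h3, hbq, hcom q hqF (hJF q hqF) p hpF]
    have hse : L p q ≠ e := by
      intro h8
      have h9 : q = J p := by rw [← h.L_inv_e, ← h8, inv_apply']
      rw [hJF p hpF] at h9
      exact hpq h9.symm
    have h10 := hA b hbG hbe hbF k hbk (L p q) (hLm p hpF q hqF) hs (hJF _ (hLm p hpF q hqF)) hse
      p hpF
    rw [hbp] at h10
    exact hpq h10.symm

/-- in a finite automorphic loop of odd order only `e` is its own inverse -/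
theorem AL0.fix_odd93 [Finite Q] (h : AL0 G L J e) (hodd : Odd (Nat.card Q)) {x : Q}
    (hx : J x = x) : x = e := by
  by_contra hxe
  refine h.fix_odd_aux93 _ Set.univ rfl ⟨Set.mem_univ _, fun _ _ _ _ => Set.mem_univ _⟩ ?_ x
    (Set.mem_univ _) hx hxe
  rw [Set.ncard_univ]
  exact hodd

end ALoop
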